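import Pool.Agent.Q120.FE.Stm

/-!
# Project FE, job MCT: McDiarmid's inequality for fair signs
-/

set_option autoImplicit false

namespace Pool.Agent.Q24.FE

open Finset Pool.Agent.Q120.FE Pool.Agent.Q120.TT Pool.Agent.Q120.FZ

lemma prodOn_half {B T : Finset ℕ} (h : T ⊆ B) : prodOn half B T = (1 / 2 : ℝ) ^ B.card := by
  unfold prodOn half
  have h1 : (1 : ℝ) - 1 / 2 = 1 / 2 := by norm_num
  rw [h1, prod_const, prod_const, ← pow_add, add_comm, card_sdiff_add_card_eq_card h]

lemma two_exp (a b c l : ℝ) (h : |b - a| ≤ 2 * c) :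
    Real.exp (l * a) + Real.exp (l * b) ≤
      2 * (Real.exp (l * ((a + b) / 2)) * Real.exp (l ^ 2 * c ^ 2 / 2)) := by
  have h1 : Real.exp (l * a) + Real.exp (l * b) =
      2 * (Real.exp (l * ((a + b) / 2)) * Real.cosh (l * ((b - a) / 2))) := by
    rw [Real.cosh_eq]
    have e1 : Real.exp (l * b) = Real.exp (l * ((a + b) / 2)) * Real.exp (l * ((b - a) / 2)) := by
      rw [← Real.exp_add]
      congr 1
      ring
    have e2 : Real.exp (l * a) = Real.exp (l * ((a + b) / 2)) * Real.exp (-(l * ((b - a) / 2))) := by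
      rw [← Real.exp_add]
      congr 1
      ring
    rw [e1, e2]
    ring
  rw [h1]
  have h2 : Real.cosh (l * ((b - a) / 2)) ≤ Real.exp ((l * ((b - a) / 2)) ^ 2 / 2) :=
    Real.cosh_le_exp_half_sq _
  have h3 : (l * ((b - a) / 2)) ^ 2 / 2 ≤ l ^ 2 * c ^ 2 / 2 := by
    have h4 : (b - a) ^ 2 ≤ (2 * c) ^ 2 := by
      rw [← sq_abs (b - a)]
      exact pow_le_pow_left₀ (abs_nonneg _) h 2
    nlinarith [sq_nonneg l, mul_le_mul_of_nonneg_left h4 (sq_nonneg l)]
  have h5 : Real.exp ((l * ((b - a) / 2)) ^ 2 / 2) ≤ Real.exp (l ^ 2 * c ^ 2 / 2) :=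
    Real.exp_le_exp.2 h3
  have h6 : 0 ≤ Real.exp (l * ((a + b) / 2)) := (Real.exp_pos _).le
  have h7 := mul_le_mul_of_nonneg_left (h2.trans h5) h6
  linarith

/-- the exponential moments -/
lemma mgf (c l : ℝ) (S : Finset ℕ) : ∀ g : Finset ℕ → ℝ,
    (∀ T ⊆ S, ∀ p ∈ S, |g (insert p T) - g (T.erase p)| ≤ 2 * c) →
    ∑ T ∈ S.powerset, Real.exp (l * g T) ≤ 2 ^ S.card *
      Real.exp (l * ((∑ T ∈ S.powerset, g T) / 2 ^ S.card) + l ^ 2 * c ^ 2 * S.card / 2) := by
  induction S using Finset.induction_on with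
  | empty =>
    intro g _
    simp
  | insert p S hp ih =>
    intro g hg
    rw [sum_powerset_insert hp, sum_powerset_insert hp, ← sum_add_distrib, ← sum_add_distrib,
      card_insert_of_notMem hp]
    have h1 := ih (fun T => (g T + g (insert p T)) / 2) (by
      intro T hT q hq
      have hpq : p ≠ q := fun h => hp (h ▸ hq)
      have e1 : insert p (insert q T) = insert q (insert p T) := Finset.insert_comm _ _ _
      have e2 : insert p (T.erase q) = (insert p T).erase q := (erase_insert_of_ne hpq).symm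
      have h2 := hg T (hT.trans (subset_insert _ _)) q (mem_insert_of_mem hq)
      have h3 := hg (insert p T) (insert_subset_insert _ hT) q (mem_insert_of_mem hq)
      rw [e1, e2]
      have e3 : (g (insert q T) + g (insert q (insert p T))) / 2 -
          (g (T.erase q) + g ((insert p T).erase q)) / 2 =
          ((g (insert q T) - g (T.erase q)) +
            (g (insert q (insert p T)) - g ((insert p T).erase q))) / 2 := by ring
      rw [e3, abs_div, abs_two, div_le_iff₀ (by norm_num)]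
      exact (abs_add_le _ _).trans (by linarith))
    have h4 : ∑ T ∈ S.powerset, (Real.exp (l * g T) + Real.exp (l * g (insert p T))) ≤
        2 * Real.exp (l ^ 2 * c ^ 2 / 2) *
          ∑ T ∈ S.powerset, Real.exp (l * ((g T + g (insert p T)) / 2)) := by
      rw [mul_sum]
      refine sum_le_sum fun T hT => ?_
      rw [mem_powerset] at hT
      have hpT : p ∉ T := fun h => hp (hT h)
      have h5 := hg T (hT.trans (subset_insert _ _)) p (mem_insert_self _ _)
      rw [erase_eq_of_notMem hpT] at h5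
      refine (two_exp _ _ c l h5).trans (le_of_eq ?_)
      ring
    refine h4.trans ((mul_le_mul_of_nonneg_left h1 (by positivity)).trans (le_of_eq ?_))
    have e4 : ∑ T ∈ S.powerset, (g T + g (insert p T)) / 2 =
        (∑ T ∈ S.powerset, (g T + g (insert p T))) / 2 := by rw [sum_div]
    rw [e4, pow_succ (2 : ℝ)]
    push_cast
    have e5 : l * ((∑ T ∈ S.powerset, (g T + g (insert p T))) / 2 / 2 ^ S.card) +
        l ^ 2 * c ^ 2 * S.card / 2 + l ^ 2 * c ^ 2 / 2 =
        l * ((∑ T ∈ S.powerset, (g T + g (insert p T))) / (2 ^ S.card * 2)) +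
          l ^ 2 * c ^ 2 * (S.card + 1) / 2 := by
      rw [div_div, mul_comm (2 : ℝ) (2 ^ S.card)]
      ring
    rw [← e5, Real.exp_add (_ + _) (l ^ 2 * c ^ 2 / 2)]
    ring

lemma sum_split {B B₁ : Finset ℕ} (h : B₁ ⊆ B) (F : Finset ℕ → ℝ) :
    ∑ T ∈ B.powerset, F T = ∑ T₀ ∈ (B \ B₁).powerset, ∑ T₁ ∈ B₁.powerset, F (T₀ ∪ T₁) := by
  rw [← sum_product']
  refine sum_nbij' (fun T => (T \ B₁, T ∩ B₁)) (fun x => x.1 ∪ x.2) ?_ ?_ ?_ ?_ ?_
  · intro T hT
    rw [mem_powerset] at hT
    rw [mem_product, mem_powerset, mem_powerset]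
    exact ⟨sdiff_subset_sdiff hT (Subset.refl _), inter_subset_right⟩
  · intro x hx
    rw [mem_product, mem_powerset, mem_powerset] at hx
    rw [mem_powerset]
    exact union_subset (hx.1.trans sdiff_subset) (hx.2.trans h)
  · intro T _
    exact sdiff_union_inter T B₁
  · intro x hx
    rw [mem_product, mem_powerset, mem_powerset] at hx
    have h1 : Disjoint x.1 B₁ := disjoint_of_subset_left hx.1 sdiff_disjoint
    refine Prod.ext ?_ ?_
    · simp only
      rw [union_sdiff_distrib, sdiff_eq_empty_iff_subset.2 hx.2, union_empty]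
      exact sdiff_eq_self_of_disjoint h1
    · simp only
      rw [union_inter_distrib_right, disjoint_iff_inter_eq_empty.1 h1, empty_union]
      exact inter_eq_left.2 hx.2
  · intro T _
    simp only
    rw [sdiff_union_inter]

/-- one tail, for fixed signs outside of the block -/
lemma one_tail {S : Finset ℕ} (g : Finset ℕ → ℝ) {c M u : ℝ} (hc : 0 < c) (hu : 0 < u)
    (hg : ∀ T ⊆ S, ∀ p ∈ S, |g (insert p T) - g (T.erase p)| ≤ 2 * c)
    (hM : ∑ T ∈ S.powerset, g T ≤ M * 2 ^ S.card) :
    (((S.powerset.filter fun T => M + u ≤ g T).card : ℕ) : ℝ) ≤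
      2 ^ S.card * Real.exp (-(u ^ 2 / (2 * c ^ 2 * S.card))) := by
  rcases S.eq_empty_or_nonempty with hS | hS
  · subst hS
    have h1 : ((∅ : Finset ℕ).powerset.filter fun T => M + u ≤ g T).card ≤
        (∅ : Finset ℕ).powerset.card := card_filter_le _ _
    rw [card_powerset, card_empty, pow_zero] at h1
    simp only [card_empty, pow_zero, Nat.cast_zero, mul_zero, div_zero, neg_zero, Real.exp_zero,
      mul_one]
    exact_mod_cast h1
  · have hcard : (0 : ℝ) < S.card := by exact_mod_cast hS.card_pos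
    obtain ⟨l, hl⟩ : ∃ l : ℝ, l = u / (c ^ 2 * S.card) := ⟨_, rfl⟩
    have hl0 : 0 < l := by rw [hl]; positivity
    have h1 := mgf c l S g hg
    have h2 : (((S.powerset.filter fun T => M + u ≤ g T).card : ℕ) : ℝ) * Real.exp (l * (M + u)) ≤
        ∑ T ∈ S.powerset, Real.exp (l * g T) := by
      calc _ = ∑ T ∈ S.powerset.filter (fun T => M + u ≤ g T), Real.exp (l * (M + u)) := by
            rw [sum_const, nsmul_eq_mul]
        _ ≤ ∑ T ∈ S.powerset.filter (fun T => M + u ≤ g T), Real.exp (l * g T) := by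
            refine sum_le_sum fun T hT => ?_
            rw [mem_filter] at hT
            exact Real.exp_le_exp.2 (mul_le_mul_of_nonneg_left hT.2 hl0.le)
        _ ≤ _ := sum_le_sum_of_subset_of_nonneg (filter_subset _ _)
            fun T _ _ => (Real.exp_pos _).le
    have h3 : l * ((∑ T ∈ S.powerset, g T) / 2 ^ S.card) + l ^ 2 * c ^ 2 * S.card / 2 ≤
        l * (M + u) + -(u ^ 2 / (2 * c ^ 2 * S.card)) := by
      have e1 : (∑ T ∈ S.powerset, g T) / 2 ^ S.card ≤ M := by
        rw [div_le_iff₀ (by positivity)]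
        exact hM
      have e2 := mul_le_mul_of_nonneg_left e1 hl0.le
      have e3 : l ^ 2 * c ^ 2 * S.card / 2 = l * u + -(u ^ 2 / (2 * c ^ 2 * S.card)) := by
        rw [hl]
        field_simp
        ring
      linarith
    have h4 : Real.exp (l * ((∑ T ∈ S.powerset, g T) / 2 ^ S.card) + l ^ 2 * c ^ 2 * S.card / 2) ≤
        Real.exp (l * (M + u)) * Real.exp (-(u ^ 2 / (2 * c ^ 2 * S.card))) := by
      rw [← Real.exp_add]
      exact Real.exp_le_exp.2 h3
    have h5 := h2.trans (h1.trans (mul_le_mul_of_nonneg_left h4 (by positivity)))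
    have h6 : 0 < Real.exp (l * (M + u)) := Real.exp_pos _
    refine le_of_mul_le_mul_right ?_ h6
    refine h5.trans (le_of_eq ?_)
    ring

open Classical in
/-- **Job MCT.** -/
theorem t_MCT : J_MCT := by
  intro B B₁ hB g c M u hc hg hM hu
  obtain ⟨E, hE⟩ : ∃ E : ℝ, E = Real.exp (-(u ^ 2 / (2 * c ^ 2 * B₁.card))) := ⟨_, rfl⟩
  rw [← hE]
  have h1 : ∑ T ∈ B.powerset with M + u ≤ |g T|, prodOn half B T =
      (1 / 2 : ℝ) ^ B.card * ∑ T ∈ B.powerset, (if M + u ≤ |g T| then (1 : ℝ) else 0) := by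
    rw [mul_sum, sum_filter]
    refine sum_congr rfl fun T hT => ?_
    rw [mem_powerset] at hT
    rw [prodOn_half hT]
    split_ifs <;> simp
  have h2 : ∑ T ∈ B.powerset, (if M + u ≤ |g T| then (1 : ℝ) else 0) ≤ 2 * E * 2 ^ B.card := by
    rw [sum_split hB]
    have h3 : ∀ T₀ ∈ (B \ B₁).powerset, ∑ T₁ ∈ B₁.powerset,
        (if M + u ≤ |g (T₀ ∪ T₁)| then (1 : ℝ) else 0) ≤ 2 * (2 ^ B₁.card * E) := by
      intro T₀ hT₀
      rw [mem_powerset] at hT₀
      have hdis : ∀ p ∈ B₁, p ∉ T₀ := fun p hp h => (mem_sdiff.1 (hT₀ h)).2 hp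
      have hbd : ∀ T ⊆ B₁, ∀ p ∈ B₁, |g (T₀ ∪ insert p T) - g (T₀ ∪ T.erase p)| ≤ 2 * c := by
        intro T hT p hp
        have e1 : T₀ ∪ insert p T = insert p (T₀ ∪ T) := union_insert _ _ _
        have e2 : T₀ ∪ T.erase p = (T₀ ∪ T).erase p := by
          ext q
          simp only [mem_union, mem_erase]
          constructor
          · rintro (h | h)
            · exact ⟨fun h' => hdis p hp (h' ▸ h), Or.inl h⟩
            · exact ⟨h.1, Or.inr h.2⟩
          · rintro ⟨h, h' | h'⟩
            · exact Or.inl h'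
            · exact Or.inr ⟨h, h'⟩
        rw [e1, e2]
        exact hg _ (union_subset (hT₀.trans sdiff_subset) (hT.trans hB)) p hp
      have hMM := hM T₀ hT₀
      rw [abs_le] at hMM
      have t1 := one_tail (fun T => g (T₀ ∪ T)) hc hu hbd hMM.2 (M := M)
      have t2 := one_tail (fun T => -g (T₀ ∪ T)) hc hu (fun T hT p hp => by
        have := hbd T hT p hp
        rw [abs_sub_comm] at this
        rw [neg_sub_neg]
        exact this) (M := M) (by
        rw [sum_neg_distrib]
        linarith [hMM.1])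
      rw [← hE] at t1 t2
      calc ∑ T₁ ∈ B₁.powerset, (if M + u ≤ |g (T₀ ∪ T₁)| then (1 : ℝ) else 0) ≤
          ∑ T₁ ∈ B₁.powerset, ((if M + u ≤ g (T₀ ∪ T₁) then (1 : ℝ) else 0) +
            (if M + u ≤ -g (T₀ ∪ T₁) then (1 : ℝ) else 0)) := by
            refine sum_le_sum fun T₁ _ => ?_
            by_cases h : M + u ≤ |g (T₀ ∪ T₁)|
            · rw [if_pos h]
              rcases le_abs.1 h with h' | h'
              · rw [if_pos h']
                split_ifs <;> norm_num
              · rw [if_pos h']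
                split_ifs <;> norm_num
            · rw [if_neg h]
              split_ifs <;> norm_num
        _ = (((B₁.powerset.filter fun T => M + u ≤ g (T₀ ∪ T)).card : ℕ) : ℝ) +
            (((B₁.powerset.filter fun T => M + u ≤ -g (T₀ ∪ T)).card : ℕ) : ℝ) := by
            rw [sum_add_distrib, sum_boole, sum_boole]
        _ ≤ 2 * (2 ^ B₁.card * E) := by linarith
    refine (sum_le_card_nsmul _ _ _ h3).trans ?_
    rw [nsmul_eq_mul, card_powerset]
    push_cast
    have h4 : B.card = (B \ B₁).card + B₁.card := (card_sdiff_add_card_eq_card hB).symm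
    rw [h4, pow_add]
    exact le_of_eq (by ring)
  rw [h1]
  calc (1 / 2 : ℝ) ^ B.card * ∑ T ∈ B.powerset, (if M + u ≤ |g T| then (1 : ℝ) else 0) ≤
      (1 / 2 : ℝ) ^ B.card * (2 * E * 2 ^ B.card) := mul_le_mul_of_nonneg_left h2 (by positivity)
    _ = 2 * E * ((1 / 2 : ℝ) ^ B.card * 2 ^ B.card) := by ring
    _ = 2 * E := by
        rw [← mul_pow]
        norm_num

end Pool.Agent.Q24.FE
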